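import Pool.Agent.Helper65.BQ.St

/-!
# Project BQ, module SPW (MP_ee405c_gt)
-/

set_option autoImplicit false

open Set Topology TopologicalSpace

namespace Pool.Agent.Helper80.BQ

open Pool.Agent.Helper9.SID Pool.Agent.Helper65.BQ

/-- Module SPW. -/
theorem pSPW : StSPW := by
  intro K _ f κ T Z hT hE hZ
  have h1 : ∀ a, ∃ L : ℕ → Set K, (∀ i, Par (f (κ (Nat.pair (a + 1) i))) (L i)) ∧
      ¬ ((T ∩ Z a) ∩ ⋂ i, L i).Nonempty := by
    intro a
    have := hZ a
    unfold Ess at this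
    push Not at this
    obtain ⟨L, h2, h3⟩ := this
    exact ⟨L, h2, by rw [h3]; exact Set.not_nonempty_empty⟩
  choose L hL hL2 using h1
  refine ⟨T ∩ ⋂ a, ⋂ i, L a i, inter_subset_left, ?_, ?_, ?_⟩
  · exact hT.inter (isClosed_iInter fun a => isClosed_iInter fun i => (hL a i).1)
  · intro M hM
    let N : ℕ → ℕ → Set K := fun a i => Nat.casesOn a (M i) (fun a => L a i)
    have h2 := hE (fun m => N (Nat.unpair m).1 (Nat.unpair m).2) (by
        intro m
        obtain ⟨a, i, rfl⟩ : ∃ a i, m = Nat.pair a i := ⟨_, _, (Nat.pair_unpair m).symm⟩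
        simp only [Nat.unpair_pair]
        cases a with
        | zero => exact hM i
        | succ a => exact hL a i)
    obtain ⟨x, hx, hx2⟩ := h2
    have hx3 : ∀ a i, x ∈ N a i := by
      intro a i
      have := mem_iInter.mp hx2 (Nat.pair a i)
      simpa only [Nat.unpair_pair] using this
    refine ⟨x, ⟨hx, ?_⟩, ?_⟩
    · exact mem_iInter.mpr fun a => mem_iInter.mpr fun i => hx3 (a + 1) i
    · exact mem_iInter.mpr fun i => hx3 0 i
  · intro a
    rw [← Set.not_nonempty_iff_eq_empty]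
    rintro ⟨x, ⟨hx1, hx2⟩, hx3⟩
    refine hL2 a ⟨x, ⟨hx1, hx3⟩, ?_⟩
    exact mem_iInter.mp hx2 a

end Pool.Agent.Helper80.BQ
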